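import Pool.Agent.H6.RCQ.Defs

/-!
# Project RCQ: tools (helper22)
-/

set_option autoImplicit false

namespace Pool.Agent.H22.RCQ

open Pool.Agent.H39.RC Pool.Agent.H6.RCQ
open Classical

variable {V : Type} {G : SimpleGraph V}

/-- no `K₃,₃`: six disjoint connected sets -/
lemma no33 (hG : PG G) (A1 A2 A3 C1 C2 C3 : Set V) (a1 : Con G A1) (a2 : Con G A2) (a3 : Con G A3)
    (c1 : Con G C1) (c2 : Con G C2) (c3 : Con G C3)
    (d12 : Disjoint A1 A2) (d13 : Disjoint A1 A3) (d23 : Disjoint A2 A3)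
    (e12 : Disjoint C1 C2) (e13 : Disjoint C1 C3) (e23 : Disjoint C2 C3)
    (f11 : Disjoint A1 C1) (f12 : Disjoint A1 C2) (f13 : Disjoint A1 C3)
    (f21 : Disjoint A2 C1) (f22 : Disjoint A2 C2) (f23 : Disjoint A2 C3)
    (f31 : Disjoint A3 C1) (f32 : Disjoint A3 C2) (f33 : Disjoint A3 C3)
    (g11 : ∃ x ∈ A1, ∃ y ∈ C1, G.Adj x y) (g12 : ∃ x ∈ A1, ∃ y ∈ C2, G.Adj x y)
    (g13 : ∃ x ∈ A1, ∃ y ∈ C3, G.Adj x y)
    (g21 : ∃ x ∈ A2, ∃ y ∈ C1, G.Adj x y) (g22 : ∃ x ∈ A2, ∃ y ∈ C2, G.Adj x y)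
    (g23 : ∃ x ∈ A2, ∃ y ∈ C3, G.Adj x y)
    (g31 : ∃ x ∈ A3, ∃ y ∈ C1, G.Adj x y) (g32 : ∃ x ∈ A3, ∃ y ∈ C2, G.Adj x y)
    (g33 : ∃ x ∈ A3, ∃ y ∈ C3, G.Adj x y) : False := by
  apply hG.k33
  refine hasMinor_k33 ![A1, A2, A3] ![C1, C2, C3] ?_ ?_ ?_ ?_ ?_ ?_
  · intro i
    fin_cases i
    exacts [a1, a2, a3]
  · intro i
    fin_cases i
    exacts [c1, c2, c3]
  · intro i j hij
    fin_cases i <;> fin_cases j <;> simp at hij ⊢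
    exacts [d12, d13, d23]
  · intro i j hij
    fin_cases i <;> fin_cases j <;> simp at hij ⊢
    exacts [e12, e13, e23]
  · intro i j
    fin_cases i <;> fin_cases j
    exacts [f11, f12, f13, f21, f22, f23, f31, f32, f33]
  · intro i j
    fin_cases i <;> fin_cases j
    exacts [g11, g12, g13, g21, g22, g23, g31, g32, g33]

/-- no `K₅`: five disjoint connected sets -/
lemma no5 (hG : PG G) (A1 A2 A3 A4 A5 : Set V) (a1 : Con G A1) (a2 : Con G A2) (a3 : Con G A3)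
    (a4 : Con G A4) (a5 : Con G A5)
    (d12 : Disjoint A1 A2) (d13 : Disjoint A1 A3) (d14 : Disjoint A1 A4) (d15 : Disjoint A1 A5)
    (d23 : Disjoint A2 A3) (d24 : Disjoint A2 A4) (d25 : Disjoint A2 A5)
    (d34 : Disjoint A3 A4) (d35 : Disjoint A3 A5) (d45 : Disjoint A4 A5)
    (g12 : ∃ x ∈ A1, ∃ y ∈ A2, G.Adj x y) (g13 : ∃ x ∈ A1, ∃ y ∈ A3, G.Adj x y)
    (g14 : ∃ x ∈ A1, ∃ y ∈ A4, G.Adj x y) (g15 : ∃ x ∈ A1, ∃ y ∈ A5, G.Adj x y)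
    (g23 : ∃ x ∈ A2, ∃ y ∈ A3, G.Adj x y) (g24 : ∃ x ∈ A2, ∃ y ∈ A4, G.Adj x y)
    (g25 : ∃ x ∈ A2, ∃ y ∈ A5, G.Adj x y)
    (g34 : ∃ x ∈ A3, ∃ y ∈ A4, G.Adj x y) (g35 : ∃ x ∈ A3, ∃ y ∈ A5, G.Adj x y)
    (g45 : ∃ x ∈ A4, ∃ y ∈ A5, G.Adj x y) : False := by
  apply hG.k5
  refine hasMinor_k5 ![A1, A2, A3, A4, A5] ?_ ?_ ?_
  · intro i
    fin_cases i
    exacts [a1, a2, a3, a4, a5]
  · intro i j hij
    fin_cases i <;> fin_cases j <;> simp at hij ⊢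
    exacts [d12, d13, d14, d15, d23, d24, d25, d34, d35, d45]
  · intro i j hij
    fin_cases i <;> fin_cases j <;> simp at hij
    exacts [g12, g13, g14, g15, g23, g24, g25, g34, g35, g45]

/-- disjointness of a singleton -/
lemma dj1 {a : V} {S : Set V} (h : a ∉ S) : Disjoint ({a} : Set V) S :=
  Set.disjoint_singleton_left.2 h

lemma dj2 {a : V} {S : Set V} (h : a ∉ S) : Disjoint S ({a} : Set V) :=
  Set.disjoint_singleton_right.2 h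

lemma EJ.symm' {P Q : Set V} {S : Finset V} {s t : V} (h : EJ G P Q S s t) : EJ G P Q S t s := by
  obtain ⟨h1, h2, h3, h4⟩ := h
  refine ⟨h2, h1, h3.symm, ?_⟩
  rcases h4 with h4 | ⟨v, h5, h6⟩
  · exact Or.inl h4.symm
  · exact Or.inr ⟨v, h6, h5⟩

lemma rch_mono {A B : Set V} {u v : V} (h : Rch G A u v) (hB : ∀ x, x ∉ A → G.Adj u x →
    G.Adj x v → x ∉ B) : Rch G B u v := by
  rcases h with h | ⟨x, h1, h2, h3⟩
  · exact Or.inl h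
  · exact Or.inr ⟨x, hB x h1 h2 h3, h2, h3⟩

end Pool.Agent.H22.RCQ
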