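import Pool.Agent.H6.RCQ.Stmts1
import Pool.Agent.H6.RCQ.Stmts3
import Pool.Agent.H22.RCQ.Tools

/-!
# Project RCQ, module B12
-/

set_option autoImplicit false

namespace Pool.Agent.H22.RCQ.B12

open Pool.Agent.H39.RC Pool.Agent.H6.RCQ Pool.Agent.H22.RCQ
open Classical

variable {V : Type} {G : SimpleGraph V}

/-- a 6-cycle in the neighbourhood of `x` and a connected set `K` adjacent to `x` -/
structure C6 (G : SimpleGraph V) (x : V) (K : Set V) (p0 p1 p2 p3 p4 p5 : V) : Prop where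
  e0 : G.Adj p0 p1
  e1 : G.Adj p1 p2
  e2 : G.Adj p2 p3
  e3 : G.Adj p3 p4
  e4 : G.Adj p4 p5
  e5 : G.Adj p5 p0
  x0 : G.Adj x p0
  x1 : G.Adj x p1
  x2 : G.Adj x p2
  x3 : G.Adj x p3
  x4 : G.Adj x p4
  x5 : G.Adj x p5
  n02 : p0 ≠ p2
  n03 : p0 ≠ p3
  n04 : p0 ≠ p4
  n13 : p1 ≠ p3
  n14 : p1 ≠ p4
  n15 : p1 ≠ p5
  n24 : p2 ≠ p4
  n25 : p2 ≠ p5
  n35 : p3 ≠ p5
  k0 : p0 ∉ K
  k1 : p1 ∉ K
  k2 : p2 ∉ K
  k3 : p3 ∉ K
  k4 : p4 ∉ K
  k5 : p5 ∉ K
  kx : x ∉ K
  kc : Con G K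
  kt : ∃ y ∈ K, G.Adj x y

lemma C6.rot {x : V} {K : Set V} {p0 p1 p2 p3 p4 p5 : V} (h : C6 G x K p0 p1 p2 p3 p4 p5) :
    C6 G x K p1 p2 p3 p4 p5 p0 :=
  ⟨h.e1, h.e2, h.e3, h.e4, h.e5, h.e0, h.x1, h.x2, h.x3, h.x4, h.x5, h.x0, h.n13, h.n14, h.n15,
    h.n24, h.n25, h.n02.symm, h.n35, h.n03.symm, h.n04.symm, h.k1, h.k2, h.k3, h.k4, h.k5, h.k0,
    h.kx, h.kc, h.kt⟩

/-- `K` is attached to `p` -/
def At' (G : SimpleGraph V) (K : Set V) (p : V) : Prop := ∃ y ∈ K, G.Adj p y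

lemma nm3 {a b c d : V} (h1 : a ≠ b) (h2 : a ≠ c) (h3 : a ≠ d) : a ∉ ({b, c, d} : Set V) := by
  simp only [Set.mem_insert_iff, Set.mem_singleton_iff, not_or]
  exact ⟨h1, h2, h3⟩

lemma nm2 {a b c : V} (h1 : a ≠ b) (h2 : a ≠ c) : a ∉ ({b, c} : Set V) := by
  simp only [Set.mem_insert_iff, Set.mem_singleton_iff, not_or]
  exact ⟨h1, h2⟩

lemma djK3 {K : Set V} {a b c : V} (h1 : a ∉ K) (h2 : b ∉ K) (h3 : c ∉ K) :
    Disjoint K {a, b, c} := by
  rw [Set.disjoint_right]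
  intro y hy
  simp only [Set.mem_insert_iff, Set.mem_singleton_iff] at hy
  rcases hy with rfl | rfl | rfl
  · exact h1
  · exact h2
  · exact h3

lemma djK2 {K : Set V} {a b : V} (h1 : a ∉ K) (h2 : b ∉ K) : Disjoint K {a, b} := by
  rw [Set.disjoint_right]
  intro y hy
  simp only [Set.mem_insert_iff, Set.mem_singleton_iff] at hy
  rcases hy with rfl | rfl
  · exact h1
  · exact h2

lemma C6.two (hG : PG G) {x : V} {K : Set V} {p0 p1 p2 p3 p4 p5 : V}
    (h : C6 G x K p0 p1 p2 p3 p4 p5) (h1 : At' G K p0) (h2 : At' G K p2) : False := by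
  obtain ⟨y0, hy0, hy0'⟩ := h1
  obtain ⟨y2, hy2, hy2'⟩ := h2
  obtain ⟨yx, hyx, hyx'⟩ := h.kt
  have c3 : Con G {p3, p4, p5} :=
    (con_pair (G := G) (Or.inr h.e4)).insert (y := p4) (v := p3) (by simp) h.e3.symm
  exact no33 hG {x} {p0} {p2} K {p1} {p3, p4, p5} (con_single _) (con_single _) (con_single _)
    h.kc (con_single _) c3 (dj1 h.x0.ne) (dj1 h.x2.ne) (dj1 h.n02) (dj2 h.k1)
    (djK3 h.k3 h.k4 h.k5) (dj1 (nm3 h.n13 h.n14 h.n15))
    (dj1 h.kx) (dj1 h.x1.ne) (dj1 (nm3 h.x3.ne h.x4.ne h.x5.ne))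
    (dj1 h.k0) (dj1 h.e0.ne) (dj1 (nm3 h.n03 h.n04 h.e5.ne'))
    (dj1 h.k2) (dj1 h.e1.ne') (dj1 (nm3 h.e2.ne h.n24 h.n25))
    ⟨x, rfl, yx, hyx, hyx'⟩ ⟨x, rfl, p1, rfl, h.x1⟩ ⟨x, rfl, p3, by simp, h.x3⟩
    ⟨p0, rfl, y0, hy0, hy0'⟩ ⟨p0, rfl, p1, rfl, h.e0⟩ ⟨p0, rfl, p5, by simp, h.e5.symm⟩
    ⟨p2, rfl, y2, hy2, hy2'⟩ ⟨p2, rfl, p1, rfl, h.e1.symm⟩ ⟨p2, rfl, p3, by simp, h.e2⟩

lemma C6.three (hG : PG G) {x : V} {K : Set V} {p0 p1 p2 p3 p4 p5 : V}
    (h : C6 G x K p0 p1 p2 p3 p4 p5) (h1 : At' G K p0) (h2 : At' G K p3) : False := by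
  obtain ⟨y0, hy0, hy0'⟩ := h1
  obtain ⟨y3, hy3, hy3'⟩ := h2
  obtain ⟨yx, hyx, hyx'⟩ := h.kt
  exact no33 hG {x} {p0} {p3} K {p1, p2} {p4, p5} (con_single _) (con_single _) (con_single _)
    h.kc (con_pair (Or.inr h.e1)) (con_pair (Or.inr h.e4)) (dj1 h.x0.ne) (dj1 h.x3.ne)
    (dj1 h.n03) (djK2 h.k1 h.k2) (djK2 h.k4 h.k5)
    (by
      rw [Set.disjoint_left]
      intro y hy
      simp only [Set.mem_insert_iff, Set.mem_singleton_iff] at hy
      rcases hy with rfl | rfl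
      · exact nm2 h.n14 h.n15
      · exact nm2 h.n24 h.n25)
    (dj1 h.kx) (dj1 (nm2 h.x1.ne h.x2.ne)) (dj1 (nm2 h.x4.ne h.x5.ne))
    (dj1 h.k0) (dj1 (nm2 h.e0.ne h.n02)) (dj1 (nm2 h.n04 h.e5.ne'))
    (dj1 h.k3) (dj1 (nm2 h.n13.symm h.e2.ne')) (dj1 (nm2 h.e3.ne h.n35))
    ⟨x, rfl, yx, hyx, hyx'⟩ ⟨x, rfl, p1, by simp, h.x1⟩ ⟨x, rfl, p4, by simp, h.x4⟩
    ⟨p0, rfl, y0, hy0, hy0'⟩ ⟨p0, rfl, p1, by simp, h.e0⟩ ⟨p0, rfl, p5, by simp, h.e5.symm⟩
    ⟨p3, rfl, y3, hy3, hy3'⟩ ⟨p3, rfl, p2, by simp, h.e2.symm⟩ ⟨p3, rfl, p4, by simp, h.e3⟩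

/-- the structure of a class with six elements -/
structure M6 (G : SimpleGraph V) (x : V) (M : Finset V) (g a b c d r : V) : Prop where
  hM : M = {g, a, b, c, d, r}
  ga : G.Adj g a
  gb : G.Adj g b
  gc : G.Adj g c
  gd : G.Adj g d
  ab : G.Adj a b
  br : G.Adj b r
  rc : G.Adj r c
  cd : G.Adj c d
  xg : G.Adj x g
  xa : G.Adj x a
  xb : G.Adj x b
  xc : G.Adj x c
  xd : G.Adj x d
  xr : G.Adj x r
  ngr : g ≠ r
  nac : a ≠ c
  nad : a ≠ d
  nar : a ≠ r
  nbc : b ≠ c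
  nbd : b ≠ d
  ndr : d ≠ r

lemma m6_of_six {R M : Finset V} {x : V} (hM : M ⊆ D G R x) (h6 : M.card = 6) (h : Six G M) :
    ∃ g a b c d r, M6 G x M g a b c d r := by
  obtain ⟨g, a, b, c, d, r, hs, h1, h2, h3, h4, h5, h7, h8, h9⟩ := h
  have hx : ∀ m ∈ M, G.Adj x m := fun m hm => (Finset.mem_filter.1 (hM hm)).2
  have hnd : ([g, a, b, c, d, r] : List V).Nodup := by
    have : ((([g, a, b, c, d, r] : List V) : Multiset V)).toFinset.card =
        Multiset.card ((([g, a, b, c, d, r] : List V) : Multiset V)) := by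
      have e : ((([g, a, b, c, d, r] : List V) : Multiset V)).toFinset = M := by
        rw [hs]
        ext y
        simp
      rw [e, h6]
      rfl
    rw [Multiset.toFinset_card_eq_card_iff_nodup] at this
    simpa using this
  simp only [List.nodup_cons, List.mem_cons, List.not_mem_nil, or_false, not_or,
    not_false_eq_true, List.nodup_nil, and_true] at hnd
  obtain ⟨⟨-, -, -, -, k5⟩, ⟨-, l2, l3, l4⟩, ⟨m1, m2, -⟩, ⟨-, -⟩, n1⟩ := hnd
  refine ⟨g, a, b, c, d, r, hs, h1, h2, h3, h4, h5, h7, h8, h9, hx g ?_, hx a ?_, hx b ?_,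
    hx c ?_, hx d ?_, hx r ?_, k5, l2, l3, l4, m1, m2, n1⟩
  all_goals
    rw [hs]
    simp

lemma M6.con {x : V} {M : Finset V} {g a b c d r : V} (h : M6 G x M g a b c d r) :
    Con G (M : Set V) := by
  have h1 : Con G ({g} : Set V) := con_single g
  have h2 : Con G (insert a {g} : Set V) := h1.insert (y := g) (by simp) h.ga
  have h3 : Con G (insert b (insert a {g}) : Set V) := h2.insert (y := g) (by simp) h.gb
  have h4 : Con G (insert c (insert b (insert a {g})) : Set V) :=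
    h3.insert (y := g) (by simp) h.gc
  have h5 : Con G (insert d (insert c (insert b (insert a {g}))) : Set V) :=
    h4.insert (y := g) (by simp) h.gd
  have h6 : Con G (insert r (insert d (insert c (insert b (insert a {g})))) : Set V) :=
    h5.insert (y := b) (by simp) h.br
  have e : (M : Set V) = insert r (insert d (insert c (insert b (insert a {g})))) := by
    rw [h.hM]
    ext y
    simp only [Finset.coe_insert, Finset.coe_singleton, Set.mem_insert_iff,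
      Set.mem_singleton_iff]
    tauto
  rw [e]
  exact h6

lemma con_star' (v : V) (A : Set V) (h : ∀ x ∈ A, G.Adj v x) : Con G (insert v A) := by
  unfold Pool.Agent.H39.RC.Con
  rw [SimpleGraph.connected_iff_exists_forall_reachable]
  refine ⟨⟨v, Set.mem_insert _ _⟩, ?_⟩
  rintro ⟨x, hx⟩
  rcases Set.mem_insert_iff.mp hx with rfl | hx'
  · exact SimpleGraph.Reachable.refl _
  · apply SimpleGraph.Adj.reachable
    exact h x hx'

lemma prop_i {Pg Pa Pb Pc Pd Pr : Prop} (z1 : ¬ (Pg ∧ Pb)) (z2 : ¬ (Pg ∧ Pr))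
    (z3 : ¬ (Pg ∧ Pc)) (z4 : ¬ (Pa ∧ Pr)) (z5 : ¬ (Pa ∧ Pc)) (z6 : ¬ (Pa ∧ Pd))
    (z7 : ¬ (Pb ∧ Pc)) (z8 : ¬ (Pb ∧ Pd)) (z9 : ¬ (Pr ∧ Pd)) (hr : Pr ∨ Pb ∨ Pc)
    (hd : Pd ∨ Pg ∨ Pc) (ha : Pa ∨ Pg ∨ Pb) : False := by
  rcases hr with k | k | k
  · rcases ha with l | l | l
    · exact z4 ⟨l, k⟩
    · exact z2 ⟨l, k⟩
    · rcases hd with m | m | m
      · exact z9 ⟨k, m⟩
      · exact z2 ⟨m, k⟩
      · exact z7 ⟨l, m⟩
  · rcases hd with m | m | m
    · exact z8 ⟨k, m⟩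
    · exact z1 ⟨m, k⟩
    · exact z7 ⟨k, m⟩
  · rcases ha with l | l | l
    · exact z5 ⟨l, k⟩
    · exact z3 ⟨l, k⟩
    · exact z7 ⟨l, k⟩

theorem b12 (hP1 : PE1Stmt) (hP3 : PE3Stmt) (hP4 : PE4Stmt) : B12Stmt := by
  intro V G R x M M' hL hco hM hM' hdis h6 h6' hsix hsix' hU
  have hG := hL.pg
  obtain ⟨g, a, b, c, d, r, h⟩ := m6_of_six hM h6 hsix
  obtain ⟨g', a', b', c', d', r', h'⟩ := m6_of_six hM' h6' hsix'
  have hMR : ∀ m ∈ M, m ∈ R ∧ G.Adj x m := fun m hm => Finset.mem_filter.1 (hM hm)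
  have hMR' : ∀ m ∈ M', m ∈ R ∧ G.Adj x m := fun m hm => Finset.mem_filter.1 (hM' hm)
  have mem : ∀ y, y ∈ M ↔ y = g ∨ y = a ∨ y = b ∨ y = c ∨ y = d ∨ y = r := by
    intro y
    rw [h.hM]
    simp only [Finset.mem_insert, Finset.mem_singleton]
  have gM : g ∈ M := by rw [mem]; tauto
  have aM : a ∈ M := by rw [mem]; tauto
  have bM : b ∈ M := by rw [mem]; tauto
  have cM : c ∈ M := by rw [mem]; tauto
  have dM : d ∈ M := by rw [mem]; tauto
  have rM : r ∈ M := by rw [mem]; tauto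
  -- `r` is not adjacent to `g`
  have ngr : ¬ G.Adj g r := by
    intro hgr
    have h4 := hco x g h.xg.ne
    have hsub : M.erase g ⊆ CN G R x g := by
      intro y hy
      obtain ⟨hy1, hy2⟩ := Finset.mem_erase.1 hy
      refine Finset.mem_filter.2 ⟨(hMR y hy2).1, (hMR y hy2).2, ?_⟩
      rcases (mem y).1 hy2 with e | e | e | e | e | e
      · exact absurd e hy1
      · exact e ▸ h.ga
      · exact e ▸ h.gb
      · exact e ▸ h.gc
      · exact e ▸ h.gd
      · exact e ▸ hgr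
    have := Finset.card_le_card hsub
    rw [Finset.card_erase_of_mem gM] at this
    omega
  -- the poles `x` and `g`
  set S : Finset V := {a, b, c, d} with hS
  have hpol : Pol G ({x} : Set V) ({g} : Set V) S := by
    have hSm : ∀ s ∈ S, G.Adj x s ∧ G.Adj g s := by
      intro s hs
      rw [hS] at hs
      simp only [Finset.mem_insert, Finset.mem_singleton] at hs
      rcases hs with rfl | rfl | rfl | rfl
      · exact ⟨h.xa, h.ga⟩
      · exact ⟨h.xb, h.gb⟩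
      · exact ⟨h.xc, h.gc⟩
      · exact ⟨h.xd, h.gd⟩
    refine ⟨con_single _, con_single _, dj1 h.xg.ne, ?_, ?_, ?_, ?_⟩
    · intro s hs e
      exact (hSm s hs).1.ne e.symm
    · intro s hs e
      exact (hSm s hs).2.ne e.symm
    · intro s hs
      exact ⟨x, rfl, (hSm s hs).1⟩
    · intro s hs
      exact ⟨g, rfl, (hSm s hs).2⟩
  have hadj : PAdj G ({x} : Set V) ({g} : Set V) := ⟨x, rfl, g, rfl, h.xg⟩
  have aS : a ∈ S := by rw [hS]; simp
  have bS : b ∈ S := by rw [hS]; simp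
  have cS : c ∈ S := by rw [hS]; simp
  have dS : d ∈ S := by rw [hS]; simp
  have rX : r ∉ XX ({x} : Set V) ({g} : Set V) S := by
    unfold XX
    simp only [Set.mem_union, Set.mem_singleton_iff, Finset.mem_coe, hS, Finset.mem_insert,
      Finset.mem_singleton, not_or]
    exact ⟨⟨h.xr.ne', h.ngr.symm⟩, h.nar.symm, h.br.ne', h.rc.ne, h.ndr.symm⟩
  have eab : EJ G ({x} : Set V) ({g} : Set V) S a b := ⟨aS, bS, h.ab.ne, Or.inl h.ab⟩
  have ecd : EJ G ({x} : Set V) ({g} : Set V) S c d := ⟨cS, dS, h.cd.ne, Or.inl h.cd⟩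
  have lrb : Lnk G (XX ({x} : Set V) ({g} : Set V) S) r b := lnk_adj rX h.br.symm
  have lrc : Lnk G (XX ({x} : Set V) ({g} : Set V) S) r c := lnk_adj rX h.rc
  have ebc : EJ G ({x} : Set V) ({g} : Set V) S b c := ⟨bS, cS, h.nbc, Or.inr ⟨r, lrb, lrc⟩⟩
  have nac : ¬ G.Adj a c := fun e =>
    hP3 V G _ _ S hG hpol (Or.inl hadj) a b c eab ebc ⟨cS, aS, h.nac.symm, Or.inl e.symm⟩
  have nbd : ¬ G.Adj b d := fun e =>
    hP3 V G _ _ S hG hpol (Or.inl hadj) b c d ebc ecd ⟨dS, bS, h.nbd.symm, Or.inl e.symm⟩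
  have nad : ¬ G.Adj a d := fun e =>
    hP4 V G _ _ S hG hpol (Or.inl hadj) a b c d h.nac h.nbd eab ebc ecd
      ⟨dS, aS, h.nad.symm, Or.inl e.symm⟩
  have nar : ¬ G.Adj a r := fun e =>
    hP1 V G _ _ S hG hpol r a b c aS bS cS h.ab.ne h.nac h.nbc (lnk_adj rX e.symm) lrb lrc
  have ndr : ¬ G.Adj d r := fun e =>
    hP1 V G _ _ S hG hpol r b c d bS cS dS h.nbc h.nbd h.cd.ne lrb lrc (lnk_adj rX e.symm)
  -- neighbours in `M`
  have xM : x ∉ M := fun e => (hMR x e).2.ne rfl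
  -- the claim on connected sets
  have hZ : ∀ K : Set V, Con G K → (∀ y ∈ K, y ∉ M ∧ y ≠ x) → (∃ y ∈ K, G.Adj x y) →
      ¬ (At' G K g ∧ At' G K b) ∧ ¬ (At' G K g ∧ At' G K r) ∧ ¬ (At' G K g ∧ At' G K c) ∧
      ¬ (At' G K a ∧ At' G K r) ∧ ¬ (At' G K a ∧ At' G K c) ∧ ¬ (At' G K a ∧ At' G K d) ∧
      ¬ (At' G K b ∧ At' G K c) ∧ ¬ (At' G K b ∧ At' G K d) ∧ ¬ (At' G K r ∧ At' G K d) := by
    intro K hK hKM hKx
    have hnot : ∀ m ∈ M, m ∉ K := fun m hm hk => (hKM m hk).1 hm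
    have h0 : C6 G x K g a b r c d :=
      ⟨h.ga, h.ab, h.br, h.rc, h.cd, h.gd.symm, h.xg, h.xa, h.xb, h.xr, h.xc, h.xd,
        h.gb.ne, h.ngr, h.gc.ne, h.nar, h.nac, h.nad, h.nbc, h.nbd, h.ndr.symm,
        hnot g gM, hnot a aM, hnot b bM, hnot r rM, hnot c cM, hnot d dM,
        fun e => (hKM x e).2 rfl, hK, hKx⟩
    have h1 := h0.rot
    have h2 := h1.rot
    have h3 := h2.rot
    have h4 := h3.rot
    have h5 := h4.rot
    refine ⟨fun k => h0.two hG k.1 k.2, fun k => h0.three hG k.1 k.2, fun k => h4.two hG k.2 k.1,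
      fun k => h1.two hG k.1 k.2, fun k => h1.three hG k.1 k.2, fun k => h5.two hG k.2 k.1,
      fun k => h2.two hG k.1 k.2, fun k => h2.three hG k.1 k.2, fun k => h3.two hG k.1 k.2⟩
  obtain ⟨u, hu⟩ := hU
  obtain ⟨huR, hux, hxu⟩ := Finset.mem_filter.1 hu
  have hM'M : ∀ m ∈ M', m ∉ M := fun m hm hm2 => Finset.disjoint_left.1 hdis hm2 hm
  have hM'x : ∀ m ∈ M', m ≠ x := fun m hm e => (hMR' m hm).2.ne e.symm
  have huM : u ∉ M := fun e => hxu (hMR u e).2
  have g'M : g' ∈ M' := by rw [h'.hM]; simp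
  by_cases hcase : ∃ m ∈ M', G.Adj u m ∨ ∃ w, w ∉ M ∧ G.Adj u w ∧ G.Adj w m
  · -- case (i)
    obtain ⟨m, hm, hum⟩ := hcase
    set K : Set V := insert u {w | G.Adj u w ∧ w ∉ M} ∪ (M' : Set V) with hKdef
    have hK1 : Con G (insert u {w | G.Adj u w ∧ w ∉ M}) := con_star' u _ (fun w hw => hw.1)
    have hK : Con G K := by
      rcases hum with k | ⟨w, k1, k2, k3⟩
      · exact hK1.union_adj h'.con (v := u) (w := m) (Set.mem_insert _ _) hm k
      · exact hK1.union_adj h'.con (v := w) (w := m) (Set.mem_insert_of_mem _ ⟨k2, k1⟩) hm k3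
    have hKM : ∀ y ∈ K, y ∉ M ∧ y ≠ x := by
      rintro y ((rfl | hy) | hy)
      · exact ⟨huM, hux⟩
      · refine ⟨hy.2, ?_⟩
        rintro rfl
        exact hxu hy.1.symm
      · exact ⟨hM'M y hy, hM'x y hy⟩
    have hKx : ∃ y ∈ K, G.Adj x y := ⟨g', Or.inr g'M, h'.xg⟩
    obtain ⟨z1, z2, z3, z4, z5, z6, z7, z8, z9⟩ := hZ K hK hKM hKx
    have hreach : ∀ m ∈ M, At' G K m ∨ ∃ w ∈ M, G.Adj w m ∧ At' G K w := by
      intro m hm
      have hne : u ≠ m := by
        rintro rfl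
        exact huM hm
      rcases hL.lk u huR m (hMR m hm).1 hne with k | ⟨w, -, k1, k2⟩
      · exact Or.inl ⟨u, Or.inl (Set.mem_insert _ _), k.symm⟩
      · by_cases hw : w ∈ M
        · exact Or.inr ⟨w, hw, k2, u, Or.inl (Set.mem_insert _ _), k1.symm⟩
        · exact Or.inl ⟨w, Or.inl (Set.mem_insert_of_mem _ ⟨k1, hw⟩), k2.symm⟩
    have hr : At' G K r ∨ At' G K b ∨ At' G K c := by
      rcases hreach r rM with k | ⟨w, hw, k1, k2⟩
      · exact Or.inl k
      · rcases (mem w).1 hw with rfl | rfl | rfl | rfl | rfl | rfl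
        · exact absurd k1 ngr
        · exact absurd k1 nar
        · exact Or.inr (Or.inl k2)
        · exact Or.inr (Or.inr k2)
        · exact absurd k1 ndr
        · exact Or.inl k2
    have hd : At' G K d ∨ At' G K g ∨ At' G K c := by
      rcases hreach d dM with k | ⟨w, hw, k1, k2⟩
      · exact Or.inl k
      · rcases (mem w).1 hw with rfl | rfl | rfl | rfl | rfl | rfl
        · exact Or.inr (Or.inl k2)
        · exact absurd k1 nad
        · exact absurd k1 nbd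
        · exact Or.inr (Or.inr k2)
        · exact Or.inl k2
        · exact absurd k1.symm ndr
    have ha : At' G K a ∨ At' G K g ∨ At' G K b := by
      rcases hreach a aM with k | ⟨w, hw, k1, k2⟩
      · exact Or.inl k
      · rcases (mem w).1 hw with rfl | rfl | rfl | rfl | rfl | rfl
        · exact Or.inr (Or.inl k2)
        · exact Or.inl k2
        · exact Or.inr (Or.inr k2)
        · exact absurd k1.symm nac
        · exact absurd k1.symm nad
        · exact absurd k1.symm nar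
    exact prop_i z1 z2 z3 z4 z5 z6 z7 z8 z9 hr hd ha
  · -- case (ii)
    push Not at hcase
    have hatt : ∀ m' ∈ M', ∃ m ∈ M, G.Adj m m' := by
      intro m' hm'
      have hne : u ≠ m' := by
        rintro rfl
        exact hxu (hMR' u hm').2
      rcases hL.lk u huR m' (hMR' m' hm').1 hne with k | ⟨w, -, k1, k2⟩
      · exact absurd k (hcase m' hm').1
      · by_cases hw : w ∈ M
        · exact ⟨w, hw, k2⟩
        · exact absurd k2 ((hcase m' hm').2 w hw k1)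
    obtain ⟨z1, z2, z3, z4, z5, z6, z7, z8, z9⟩ := hZ (M' : Set V) h'.con
      (fun y hy => ⟨hM'M y hy, hM'x y hy⟩) ⟨g', g'M, h'.xg⟩
    have htwo : ∀ m n1 n2, m ∈ M → n1 ∈ M → n2 ∈ M → n1 ≠ n2 → G.Adj m n1 → G.Adj m n2 →
        (M'.filter (fun y => G.Adj m y)).card ≤ 2 := by
      intro m n1 n2 hm hn1 hn2 hne k1 k2
      have h4 := hco x m (hMR m hm).2.ne
      have hsub : M'.filter (fun y => G.Adj m y) ∪ {n1, n2} ⊆ CN G R x m := by
        intro y hy
        rcases Finset.mem_union.1 hy with hy | hy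
        · obtain ⟨hy1, hy2⟩ := Finset.mem_filter.1 hy
          exact Finset.mem_filter.2 ⟨(hMR' y hy1).1, (hMR' y hy1).2, hy2⟩
        · simp only [Finset.mem_insert, Finset.mem_singleton] at hy
          rcases hy with rfl | rfl
          · exact Finset.mem_filter.2 ⟨(hMR y hn1).1, (hMR y hn1).2, k1⟩
          · exact Finset.mem_filter.2 ⟨(hMR y hn2).1, (hMR y hn2).2, k2⟩
      have hd : Disjoint (M'.filter (fun y => G.Adj m y)) ({n1, n2} : Finset V) := by
        rw [Finset.disjoint_left]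
        intro y hy1 hy2
        have hy3 := hM'M y (Finset.mem_filter.1 hy1).1
        simp only [Finset.mem_insert, Finset.mem_singleton] at hy2
        rcases hy2 with rfl | rfl
        · exact hy3 hn1
        · exact hy3 hn2
      have := Finset.card_le_card hsub
      rw [Finset.card_union_of_disjoint hd, Finset.card_pair hne] at this
      omega
    have tg := htwo g a b gM aM bM h.ab.ne h.ga h.gb
    have ta := htwo a g b aM gM bM h.gb.ne h.ga.symm h.ab
    have tb := htwo b g a bM gM aM h.ga.ne h.gb.symm h.ab.symm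
    have tc := htwo c g d cM gM dM h.gd.ne h.gc.symm h.cd
    have td := htwo d g c dM gM cM h.gc.ne h.gd.symm h.cd.symm
    have tr := htwo r b c rM bM cM h.nbc h.br.symm h.rc
    have hcover : M' ⊆ (M'.filter (fun y => G.Adj g y)) ∪ ((M'.filter (fun y => G.Adj a y)) ∪
        ((M'.filter (fun y => G.Adj b y)) ∪ ((M'.filter (fun y => G.Adj c y)) ∪
        ((M'.filter (fun y => G.Adj d y)) ∪ (M'.filter (fun y => G.Adj r y)))))) := by
      intro y hy
      obtain ⟨m, hm, k⟩ := hatt y hy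
      simp only [Finset.mem_union, Finset.mem_filter]
      rcases (mem m).1 hm with rfl | rfl | rfl | rfl | rfl | rfl
      · exact Or.inl ⟨hy, k⟩
      · exact Or.inr (Or.inl ⟨hy, k⟩)
      · exact Or.inr (Or.inr (Or.inl ⟨hy, k⟩))
      · exact Or.inr (Or.inr (Or.inr (Or.inl ⟨hy, k⟩)))
      · exact Or.inr (Or.inr (Or.inr (Or.inr (Or.inl ⟨hy, k⟩))))
      · exact Or.inr (Or.inr (Or.inr (Or.inr (Or.inr ⟨hy, k⟩))))
    have hz : ∀ m, ¬ At' G (M' : Set V) m → (M'.filter (fun y => G.Adj m y)).card = 0 := by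
      intro m hm
      rw [Finset.card_eq_zero, Finset.filter_eq_empty_iff]
      intro y hy k
      exact hm ⟨y, hy, k⟩
    have c1 := Finset.card_le_card hcover
    have c2 := Finset.card_union_le (M'.filter (fun y => G.Adj g y))
      ((M'.filter (fun y => G.Adj a y)) ∪
        ((M'.filter (fun y => G.Adj b y)) ∪ ((M'.filter (fun y => G.Adj c y)) ∪
        ((M'.filter (fun y => G.Adj d y)) ∪ (M'.filter (fun y => G.Adj r y))))))
    have c3 := Finset.card_union_le (M'.filter (fun y => G.Adj a y))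
        ((M'.filter (fun y => G.Adj b y)) ∪ ((M'.filter (fun y => G.Adj c y)) ∪
        ((M'.filter (fun y => G.Adj d y)) ∪ (M'.filter (fun y => G.Adj r y)))))
    have c4 := Finset.card_union_le (M'.filter (fun y => G.Adj b y))
        ((M'.filter (fun y => G.Adj c y)) ∪
        ((M'.filter (fun y => G.Adj d y)) ∪ (M'.filter (fun y => G.Adj r y))))
    have c5 := Finset.card_union_le (M'.filter (fun y => G.Adj c y))
        ((M'.filter (fun y => G.Adj d y)) ∪ (M'.filter (fun y => G.Adj r y)))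
    have c6 := Finset.card_union_le (M'.filter (fun y => G.Adj d y))
        (M'.filter (fun y => G.Adj r y))
    rw [h6'] at c1
    have zg := hz g
    have za := hz a
    have zb := hz b
    have zc := hz c
    have zd := hz d
    have zr := hz r
    by_cases qg : At' G (M' : Set V) g
    · have q1 : ¬ At' G (M' : Set V) b := fun e => z1 ⟨qg, e⟩
      have q2 : ¬ At' G (M' : Set V) r := fun e => z2 ⟨qg, e⟩
      have q3 : ¬ At' G (M' : Set V) c := fun e => z3 ⟨qg, e⟩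
      have := zb q1
      have := zr q2
      have := zc q3
      by_cases qa : At' G (M' : Set V) a
      · have := zd (fun e => z6 ⟨qa, e⟩)
        omega
      · have := za qa
        omega
    · have := zg qg
      by_cases qb : At' G (M' : Set V) b
      · have := zc (fun e => z7 ⟨qb, e⟩)
        have := zd (fun e => z8 ⟨qb, e⟩)
        by_cases qa : At' G (M' : Set V) a
        · have := zr (fun e => z4 ⟨qa, e⟩)
          omega
        · have := za qa
          omega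
      · have := zb qb
        by_cases qc : At' G (M' : Set V) c
        · have := za (fun e => z5 ⟨e, qc⟩)
          by_cases qd : At' G (M' : Set V) d
          · have := zr (fun e => z9 ⟨e, qd⟩)
            omega
          · have := zd qd
            omega
        · have := zc qc
          by_cases qa : At' G (M' : Set V) a
          · have := zr (fun e => z4 ⟨qa, e⟩)
            have := zd (fun e => z6 ⟨qa, e⟩)
            omega
          · have := za qa
            omega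

end Pool.Agent.H22.RCQ.B12
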