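import Pool.Agent.H6.RCQ.Stmts1
import Pool.Agent.H22.RCQ.Tools

/-!
# Project RCQ, module CO4
-/

set_option autoImplicit false

namespace Pool.Agent.H22.RCQ.CO4

open Pool.Agent.H39.RC Pool.Agent.H6.RCQ Pool.Agent.H22.RCQ
open Classical

variable {V : Type} {G : SimpleGraph V}

/-- the data given by `R4L` -/
structure RD (G : SimpleGraph V) (P Q : Set V) (S : Finset V) (r a b c d : V) : Prop where
  hS : S = {a, b, c, d}
  ab : a ≠ b
  ac : a ≠ c
  ad : a ≠ d
  bc : b ≠ c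
  bd : b ≠ d
  cd : c ≠ d
  Aab : G.Adj a b
  rb : G.Adj r b
  rc : G.Adj r c
  Acd : G.Adj c d
  ej : EJ G P Q S b c
  na : ¬ Lnk G (XX P Q S) r a
  nd : ¬ Lnk G (XX P Q S) r d

lemma RD.symm {P Q : Set V} {S : Finset V} {r a b c d : V} (h : RD G P Q S r a b c d) :
    RD G P Q S r d c b a where
  hS := by
    rw [h.hS]
    ext x
    simp only [Finset.mem_insert, Finset.mem_singleton]
    tauto
  ab := h.cd.symm
  ac := h.bd.symm
  ad := h.ad.symm
  bc := h.bc.symm
  bd := h.ac.symm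
  cd := h.ab.symm
  Aab := h.Acd.symm
  rb := h.rc
  rc := h.rb
  Acd := h.Aab.symm
  ej := EJ.symm' h.ej
  na := h.nd
  nd := h.na

lemma RD.mem {P Q : Set V} {S : Finset V} {r a b c d : V} (h : RD G P Q S r a b c d) {x : V} :
    x ∈ S ↔ x = a ∨ x = b ∨ x = c ∨ x = d := by
  rw [h.hS]
  simp only [Finset.mem_insert, Finset.mem_singleton]

theorem co4 (hR4 : R4LStmt) (hP2 : PE2Stmt) (hP4 : PE4Stmt) : CO4Stmt := by
  intro V G O M hG hF hd g hg h4
  set S := M.filter (fun v => G.Adj g v) with hSdef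
  have hSM : ∀ s ∈ S, s ∈ M ∧ G.Adj g s := fun s hs => Finset.mem_filter.1 hs
  have hpol : Pol G O {g} S := by
    refine ⟨hF.con, con_single g, dj2 hg, fun s hs => hF.out s (hSM s hs).1, ?_, ?_, ?_⟩
    · intro s hs hsg
      rw [Set.mem_singleton_iff] at hsg
      exact (hSM s hs).2.ne hsg.symm
    · intro s hs
      obtain ⟨z, hz, hzs⟩ := hF.adj s (hSM s hs).1
      exact ⟨z, hz, hzs⟩
    · intro s hs
      exact ⟨g, rfl, (hSM s hs).2⟩
  set X := XX O {g} S with hX
  have hXmem : ∀ x, x ∈ X ↔ (x ∈ O ∨ x = g) ∨ x ∈ S := by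
    intro x
    rw [hX]
    unfold XX
    simp only [Set.mem_union, Set.mem_singleton_iff, Finset.mem_coe]
  -- the set of the other elements
  set T := M.filter (fun r => r ≠ g ∧ ¬ G.Adj g r) with hTdef
  have hTm : ∀ r ∈ T, r ∈ M ∧ r ≠ g ∧ ¬ G.Adj g r := fun r hr => Finset.mem_filter.1 hr
  have hTX : ∀ r ∈ T, r ∉ X := by
    intro r hr
    obtain ⟨h1, h2, h3⟩ := hTm r hr
    rw [hXmem]
    rintro ((h | h) | h)
    · exact hF.out r h1 h
    · exact h2 h
    · exact h3 (hSM r h).2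
  have hTL : ∀ r ∈ T, ∀ s ∈ S, Rch G (O ∪ {g}) r s := by
    intro r hr s hs
    obtain ⟨h1, h2, h3⟩ := hTm r hr
    have hne : r ≠ s := by
      rintro rfl
      exact h3 (hSM r hs).2
    refine rch_mono (hF.lk r h1 s (hSM s hs).1 hne) ?_
    intro x hx hrx _ hx2
    rcases hx2 with hx2 | hx2
    · exact hx hx2
    · rw [Set.mem_singleton_iff] at hx2
      rw [hx2] at hrx
      exact h3 hrx.symm
  have hRD : ∀ r ∈ T, ∃ a b c d, RD G O {g} S r a b c d := by
    intro r hr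
    obtain ⟨a, b, c, d, h1, h2, h3, h4', h5, h6, h7, h8, h9, h10, h11, h12, h13, h14⟩ :=
      hR4 V G O {g} S hG hpol h4 r (hTX r hr) (hTL r hr)
    exact ⟨a, b, c, d, ⟨h1, h2, h3, h4', h5, h6, h7, h8, h9, h10, h11, h12, h13, h14⟩⟩
  -- attached vertices
  have hatt : ∀ r ∈ T, ∀ {a b c d : V}, RD G O {g} S r a b c d → ∀ x ∈ S, Lnk G X r x →
      x = b ∨ x = c := by
    intro r hr a b c d h x hx hl
    rcases h.mem.1 hx with e | e | e | e
    · exact absurd (e ▸ hl) h.na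
    · exact Or.inl e
    · exact Or.inr e
    · exact absurd (e ▸ hl) h.nd
  -- same attachments impossible
  have hsame : ∀ r1 ∈ T, ∀ r2 ∈ T, r1 ≠ r2 → ∀ {a b c d : V}, RD G O {g} S r1 a b c d →
      G.Adj r2 b → G.Adj r2 c → False := by
    intro r1 hr1 r2 hr2 hne a b c d h h2b h2c
    have haS : a ∈ S := h.mem.2 (Or.inl rfl)
    have hbS : b ∈ S := h.mem.2 (Or.inr (Or.inl rfl))
    have hcS : c ∈ S := h.mem.2 (Or.inr (Or.inr (Or.inl rfl)))
    obtain ⟨z, hz, hza⟩ := hpol.aP a haS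
    have hcon : Con G (insert a O) := hF.con.insert hz hza
    have hout : ∀ x, x ∉ O → x ≠ a → x ∉ insert a O := by
      intro x h1 h2 h3
      rcases Set.mem_insert_iff.1 h3 with h3 | h3
      · exact h2 h3
      · exact h1 h3
    obtain ⟨z1, hz1, hz1r⟩ := hF.adj r1 (hTm r1 hr1).1
    obtain ⟨z2, hz2, hz2r⟩ := hF.adj r2 (hTm r2 hr2).1
    have ha1 : r1 ≠ a := by
      rintro rfl
      exact (hTX _ hr1) ((hXmem _).2 (Or.inr haS))
    have ha2 : r2 ≠ a := by
      rintro rfl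
      exact (hTX _ hr2) ((hXmem _).2 (Or.inr haS))
    refine no33 hG {b} {c} (insert a O) {g} {r1} {r2} (con_single _) (con_single _) hcon
      (con_single _) (con_single _) (con_single _) (dj1 h.bc) (dj1 (hout b (hpol.oP b hbS) h.ab.symm))
      (dj1 (hout c (hpol.oP c hcS) h.ac.symm)) (dj1 (hTm r1 hr1).2.1.symm) (dj1 (hTm r2 hr2).2.1.symm)
      (dj1 hne) (dj1 (hSM b hbS).2.ne') (dj1 h.rb.ne') (dj1 h2b.ne') (dj1 (hSM c hcS).2.ne')
      (dj1 h.rc.ne') (dj1 h2c.ne') (dj2 (hout g hg (hSM a haS).2.ne))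
      (dj2 (hout r1 (hF.out _ (hTm r1 hr1).1) ha1)) (dj2 (hout r2 (hF.out _ (hTm r2 hr2).1) ha2))
      ⟨b, rfl, g, rfl, (hSM b hbS).2.symm⟩ ⟨b, rfl, r1, rfl, h.rb.symm⟩ ⟨b, rfl, r2, rfl, h2b.symm⟩
      ⟨c, rfl, g, rfl, (hSM c hcS).2.symm⟩ ⟨c, rfl, r1, rfl, h.rc.symm⟩ ⟨c, rfl, r2, rfl, h2c.symm⟩
      ⟨a, Set.mem_insert _ _, g, rfl, (hSM a haS).2.symm⟩
      ⟨z1, Set.mem_insert_of_mem _ hz1, r1, rfl, hz1r⟩
      ⟨z2, Set.mem_insert_of_mem _ hz2, r2, rfl, hz2r⟩
  -- common attachment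
  have hcommon : ∀ r1 ∈ T, ∀ r2 ∈ T, r1 ≠ r2 → ∀ {a b c d a' b' c' d' : V},
      RD G O {g} S r1 a b c d → RD G O {g} S r2 a' b' c' d' →
      ∃ s, (s = b ∨ s = c) ∧ (s = b' ∨ s = c') := by
    intro r1 hr1 r2 hr2 hne a b c d a' b' c' d' h1 h2
    have hb' : b' ∈ S := h2.mem.2 (Or.inr (Or.inl rfl))
    rcases hF.lk r1 (hTm r1 hr1).1 r2 (hTm r2 hr2).1 hne with hadj | ⟨x, hxO, hx1, hx2⟩
    · have hl : Lnk G X r1 b' := lnk_cons (hTX r1 hr1) hadj (lnk_adj (hTX r2 hr2) h2.rb)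
      exact ⟨b', hatt r1 hr1 h1 b' hb' hl, Or.inl rfl⟩
    · by_cases hxX : x ∈ X
      · rcases (hXmem x).1 hxX with (h | h) | h
        · exact absurd h hxO
        · rw [h] at hx1
          exact absurd hx1.symm (hTm r1 hr1).2.2
        · exact ⟨x, hatt r1 hr1 h1 x h (lnk_adj (hTX r1 hr1) hx1),
            hatt r2 hr2 h2 x h (lnk_adj (hTX r2 hr2) hx2.symm)⟩
      · have hl : Lnk G X r1 b' := lnk_cons (hTX r1 hr1) hx1
          (lnk_cons hxX hx2 (lnk_adj (hTX r2 hr2) h2.rb))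
        exact ⟨b', hatt r1 hr1 h1 b' hb' hl, Or.inl rfl⟩
  -- real adjacency gives EJ
  have hejA : ∀ s ∈ S, ∀ t ∈ S, G.Adj s t → EJ G O {g} S s t :=
    fun s hs t ht h => ⟨hs, ht, h.ne, Or.inl h⟩
  -- the structure for two elements
  have hpair : ∀ r1 ∈ T, ∀ r2 ∈ T, r1 ≠ r2 → ∃ a b c d, RD G O {g} S r1 a b c d ∧
      G.Adj r2 b ∧ G.Adj r2 a ∧ EJ G O {g} S b a ∧ G.Adj b c ∧ G.Adj d a := by
    intro r1 hr1 r2 hr2 hne
    have main : ∀ {a b c d a' c' d' : V}, RD G O {g} S r1 a b c d → RD G O {g} S r2 a' b c' d' →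
        ∃ a b c d, RD G O {g} S r1 a b c d ∧
          G.Adj r2 b ∧ G.Adj r2 a ∧ EJ G O {g} S b a ∧ G.Adj b c ∧ G.Adj d a := by
      intro a b c d a' c' d' h1 h2
      have haS : a ∈ S := h1.mem.2 (Or.inl rfl)
      have hbS : b ∈ S := h1.mem.2 (Or.inr (Or.inl rfl))
      have hcS : c ∈ S := h1.mem.2 (Or.inr (Or.inr (Or.inl rfl)))
      have ha'S : a' ∈ S := h2.mem.2 (Or.inl rfl)
      have hcc : c ≠ c' := by
        rintro rfl
        exact hsame r1 hr1 r2 hr2 hne h1 h2.rb h2.rc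
      have e1 : a = c' := by
        by_contra hac
        exact hP2 V G O {g} S hG hpol b c c' a h1.ej h2.ej
          (hejA b hbS a haS h1.Aab.symm) hcc h1.ac.symm (Ne.symm hac)
      have e2 : a' = c := by
        by_contra hac
        exact hP2 V G O {g} S hG hpol b c c' a' h1.ej h2.ej
          (hejA b hbS a' ha'S h2.Aab.symm) hcc (Ne.symm hac) h2.ac.symm
      subst e1 e2
      have hd' : d' = d := by
        have h3 : d' ∈ S := h2.mem.2 (Or.inr (Or.inr (Or.inr rfl)))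
        rcases h1.mem.1 h3 with e | e | e | e
        · exact absurd e.symm h2.cd
        · exact absurd e.symm h2.bd
        · exact absurd e.symm h2.ad
        · exact e
      subst hd'
      exact ⟨a, b, a', d', h1, h2.rb, h2.rc, h2.ej, h2.Aab.symm, h2.Acd.symm⟩
    obtain ⟨a, b, c, d, h1⟩ := hRD r1 hr1
    obtain ⟨a', b', c', d', h2⟩ := hRD r2 hr2
    obtain ⟨s, hs1, hs2⟩ := hcommon r1 hr1 r2 hr2 hne h1 h2
    rcases hs1 with rfl | rfl
    · rcases hs2 with rfl | rfl
      · exact main h1 h2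
      · exact main h1 h2.symm
    · rcases hs2 with rfl | rfl
      · exact main h1.symm h2
      · exact main h1.symm h2.symm
  -- no three elements
  have hthree : ∀ r1 ∈ T, ∀ r2 ∈ T, ∀ r3 ∈ T, r1 ≠ r2 → r1 ≠ r3 → r2 ≠ r3 → False := by
    intro r1 hr1 r2 hr2 r3 hr3 h12 h13 h23
    obtain ⟨a, b, c, d, h1, k2b, k2a, eba, kbc, kda⟩ := hpair r1 hr1 r2 hr2 h12
    have haS : a ∈ S := h1.mem.2 (Or.inl rfl)
    have hbS : b ∈ S := h1.mem.2 (Or.inr (Or.inl rfl))
    have hcS : c ∈ S := h1.mem.2 (Or.inr (Or.inr (Or.inl rfl)))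
    have hdS : d ∈ S := h1.mem.2 (Or.inr (Or.inr (Or.inr rfl)))
    have ecd := hejA c hcS d hdS h1.Acd
    have eda := hejA d hdS a haS kda
    have ebc := hejA b hbS c hcS kbc
    have eab := EJ.symm' eba
    -- r3 attached only to ...
    have main : ∀ {a3 b3 c3 d3 : V}, RD G O {g} S r3 a3 b3 c3 d3 → (b3 = b ∨ b3 = c) →
        (b3 = a ∨ b3 = b ∨ c3 = a ∨ c3 = b) → False := by
      intro a3 b3 c3 d3 h3 hb hc
      have hc3 : c3 ∈ S := h3.mem.2 (Or.inr (Or.inr (Or.inl rfl)))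
      have hbc3 := h3.bc
      rcases hb with e | e
      · subst e
        -- c3 is a or c
        have : c3 = c ∨ c3 = a := by
          by_contra hcon
          push Not at hcon
          exact hP2 V G O {g} S hG hpol b3 c a c3 ebc eba h3.ej h1.ac.symm (Ne.symm hcon.1)
            (Ne.symm hcon.2)
        rcases this with e | e
        · subst e
          exact hsame r1 hr1 r3 hr3 h13 h1 h3.rb h3.rc
        · subst e
          exact hsame r3 hr3 r2 hr2 h23.symm h3 k2b k2a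
      · subst e
        have : c3 = b ∨ c3 = d := by
          by_contra hcon
          push Not at hcon
          exact hP2 V G O {g} S hG hpol b3 b d c3 (EJ.symm' ebc) ecd h3.ej h1.bd
            (Ne.symm hcon.1) (Ne.symm hcon.2)
        rcases this with e | e
        · subst e
          exact hsame r1 hr1 r3 hr3 h13 h1 h3.rc h3.rb
        · subst e
          rcases hc with e | e | e | e
          · exact h1.ac e.symm
          · exact h1.bc e.symm
          · exact h1.ad e.symm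
          · exact h1.bd e.symm
    obtain ⟨a3, b3, c3, d3, h3⟩ := hRD r3 hr3
    obtain ⟨s, hs1, hs2⟩ := hcommon r1 hr1 r3 hr3 h13 h1 h3
    obtain ⟨a2, b2, c2, d2, h2⟩ := hRD r2 hr2
    obtain ⟨s', hs3, hs4⟩ := hcommon r2 hr2 r3 hr3 h23 h2 h3
    have hs5 : s' = a ∨ s' = b := by
      have hs'S : s' ∈ S := h2.mem.2 (by tauto)
      have l1 := hatt r2 hr2 h2 b hbS (lnk_adj (hTX r2 hr2) k2b)
      have l2 := hatt r2 hr2 h2 a haS (lnk_adj (hTX r2 hr2) k2a)
      have hab := h1.ab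
      rcases l1 with e | e <;> rcases l2 with e' | e'
      · exact absurd (e'.trans e.symm) hab
      · rcases hs3 with e3 | e3
        · exact Or.inr (e3.trans e.symm)
        · exact Or.inl (e3.trans e'.symm)
      · rcases hs3 with e3 | e3
        · exact Or.inl (e3.trans e'.symm)
        · exact Or.inr (e3.trans e.symm)
      · exact absurd (e'.trans e.symm) hab
    rcases hs2 with e | e
    · subst e
      refine main h3 hs1 ?_
      rcases hs4 with e | e
      · subst e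
        rcases hs5 with e | e
        · exact Or.inl e
        · exact Or.inr (Or.inl e)
      · subst e
        rcases hs5 with e | e
        · exact Or.inr (Or.inr (Or.inl e))
        · exact Or.inr (Or.inr (Or.inr e))
    · subst e
      refine main h3.symm hs1 ?_
      rcases hs4 with e | e
      · subst e
        rcases hs5 with e | e
        · exact Or.inr (Or.inr (Or.inl e))
        · exact Or.inr (Or.inr (Or.inr e))
      · subst e
        rcases hs5 with e | e
        · exact Or.inl e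
        · exact Or.inr (Or.inl e)
  have hTcard : T.card ≤ 2 := by
    by_contra hcon
    obtain ⟨r1, m1, r2, m2, r3, m3, n12, n13, n23⟩ := Finset.two_lt_card.mp (not_le.mp hcon)
    exact hthree r1 m1 r2 m2 r3 m3 n12 n13 n23
  -- if g ∈ M then at most one
  have hTg : g ∈ M → T.card ≤ 1 := by
    intro hgM
    by_contra hcon
    obtain ⟨r1, m1, r2, m2, n12⟩ := Finset.one_lt_card.mp (not_le.mp hcon)
    obtain ⟨a, b, c, d, h1, k2b, k2a, eba, kbc, kda⟩ := hpair r1 m1 r2 m2 n12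
    have haS : a ∈ S := h1.mem.2 (Or.inl rfl)
    have hbS : b ∈ S := h1.mem.2 (Or.inr (Or.inl rfl))
    have hcS : c ∈ S := h1.mem.2 (Or.inr (Or.inr (Or.inl rfl)))
    have hdS : d ∈ S := h1.mem.2 (Or.inr (Or.inr (Or.inr rfl)))
    obtain ⟨z, hz, hzg⟩ := hF.adj g hgM
    exact hP4 V G O {g} S hG hpol (Or.inl ⟨z, hz, g, rfl, hzg⟩) a b c d h1.ac h1.bd
      (EJ.symm' eba) (hejA b hbS c hcS kbc) (hejA c hcS d hdS h1.Acd) (hejA d hdS a haS kda)
  -- the count
  have hMeq : M = S ∪ T ∪ (if g ∈ M then {g} else ∅) := by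
    ext x
    simp only [Finset.mem_union, hSdef, hTdef, Finset.mem_filter]
    constructor
    · intro hx
      by_cases hxg : x = g
      · right
        rw [if_pos (hxg ▸ hx)]
        simp [hxg]
      · left
        by_cases h : G.Adj g x
        · exact Or.inl ⟨hx, h⟩
        · exact Or.inr ⟨hx, hxg, h⟩
    · rintro ((h | h) | h)
      · exact h.1
      · exact h.1
      · split_ifs at h with h'
        · rw [Finset.mem_singleton] at h
          rwa [h]
        · simp at h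
  have hdST : Disjoint S T := by
    rw [Finset.disjoint_left]
    intro x h1 h2
    exact (hTm x h2).2.2 (hSM x h1).2
  by_cases hgM : g ∈ M
  · rw [if_pos hgM] at hMeq
    have hdg : Disjoint (S ∪ T) {g} := by
      rw [Finset.disjoint_singleton_right, Finset.mem_union]
      rintro (h | h)
      · exact (hSM g h).2.ne rfl
      · exact (hTm g h).2.1 rfl
    have hc : M.card = 4 + T.card + 1 := by
      conv_lhs => rw [hMeq]
      rw [Finset.card_union_of_disjoint hdg, Finset.card_union_of_disjoint hdST, h4,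
        Finset.card_singleton]
    have := hTg hgM
    refine ⟨by omega, fun h6 => ?_⟩
    have hT1 : T.card = 1 := by omega
    obtain ⟨r, hr⟩ := Finset.card_eq_one.1 hT1
    have hrT : r ∈ T := by rw [hr]; exact Finset.mem_singleton_self r
    obtain ⟨a, b, c, d, h1⟩ := hRD r hrT
    refine ⟨g, a, b, c, d, r, ?_, (hSM a (h1.mem.2 (Or.inl rfl))).2,
      (hSM b (h1.mem.2 (Or.inr (Or.inl rfl)))).2, (hSM c (h1.mem.2 (Or.inr (Or.inr (Or.inl rfl))))).2,
      (hSM d (h1.mem.2 (Or.inr (Or.inr (Or.inr rfl))))).2, h1.Aab, h1.rb.symm, h1.rc, h1.Acd⟩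
    rw [hMeq, hr, h1.hS]
    ext x
    simp only [Finset.mem_union, Finset.mem_insert, Finset.mem_singleton]
    tauto
  · rw [if_neg hgM, Finset.union_empty] at hMeq
    have hc : M.card = 4 + T.card := by
      conv_lhs => rw [hMeq]
      rw [Finset.card_union_of_disjoint hdST, h4]
    refine ⟨by omega, fun h6 => ?_⟩
    have hT2 : T.card = 2 := by omega
    obtain ⟨r1, r2, hne, hr⟩ := Finset.card_eq_two.1 hT2
    have m1 : r1 ∈ T := by rw [hr]; simp
    have m2 : r2 ∈ T := by rw [hr]; simp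
    obtain ⟨a, b, c, d, h1, k2b, k2a, eba, kbc, kda⟩ := hpair r1 m1 r2 m2 hne
    refine ⟨b, r2, a, c, r1, d, ?_, k2b.symm, h1.Aab.symm, kbc, h1.rb.symm, k2a, kda.symm,
      h1.Acd.symm, h1.rc.symm⟩
    rw [hMeq, hr, h1.hS]
    ext x
    simp only [Finset.mem_union, Finset.mem_insert, Finset.mem_singleton]
    tauto

end Pool.Agent.H22.RCQ.CO4
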