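import Pool.Agent.H6.RCQ.Stmts1
import Pool.Agent.H6.RCQ.Stmts3
import Pool.Agent.H22.RCQ.Tools

/-!
# Project RCQ, module T8C
-/

set_option autoImplicit false

namespace Pool.Agent.H22.RCQ.T8C

open Pool.Agent.H39.RC Pool.Agent.H6.RCQ Pool.Agent.H22.RCQ
open Classical

variable {V : Type} {G : SimpleGraph V}

lemma fin2 {a b c : Fin 2} (h1 : a ≠ c) (h2 : b ≠ c) : a = b := by
  revert a b c
  decide

/-- one side: labels -/
lemma side1 {lab : V → V → Fin 2} {R : Finset V} {x c a1 a2 a3 : V} (h : Cfg 2 G lab R)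
    (hCN : CN G R x c = {a1, a2, a3})
    (hatt : ∀ w, w ∈ U G R x → ¬ Lnk G (XX {x} {c} (CN G R x c)) w a3 ∧
      ¬ Lnk G (XX {x} {c} (CN G R x c)) w a1) (hxc : G.Adj x c) :
    ∀ u ∈ U G R x, (G.Adj c u ∧ lab c u ≠ lab c a1) ∨ (G.Adj a2 u ∧ lab a2 u ≠ lab a2 a1) := by
  intro u hu
  obtain ⟨huR, hux, hxu⟩ := Finset.mem_filter.1 hu
  have ha1 : a1 ∈ CN G R x c := by rw [hCN]; simp
  have ha3 : a3 ∈ CN G R x c := by rw [hCN]; simp
  obtain ⟨ha1R, ha1x, ha1c⟩ := Finset.mem_filter.1 ha1
  obtain ⟨ha3R, ha3x, ha3c⟩ := Finset.mem_filter.1 ha3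
  have hXmem : ∀ w, w ∈ XX {x} {c} (CN G R x c) ↔ (w = x ∨ w = c) ∨ w ∈ CN G R x c := by
    intro w
    unfold XX
    simp only [Set.mem_union, Set.mem_singleton_iff, Finset.mem_coe]
  have huX : u ∉ XX {x} {c} (CN G R x c) := by
    rw [hXmem]
    rintro ((e | e) | e)
    · exact hux e
    · rw [e] at hxu
      exact hxu hxc
    · exact hxu (Finset.mem_filter.1 e).2.1
  have hne : u ≠ a1 := by
    rintro rfl
    exact hxu ha1x
  rcases h.lk u huR a1 ha1R hne with hadj | ⟨w, -, hwu, hwa, hlab⟩
  · exact absurd (lnk_adj huX hadj) (hatt u hu).2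
  · by_cases hwX : w ∈ XX {x} {c} (CN G R x c)
    · rcases (hXmem w).1 hwX with (e | e) | e
      · rw [e] at hwu
        exact absurd hwu hxu
      · rw [e] at hwu hlab
        exact Or.inl ⟨hwu, hlab⟩
      · rw [hCN] at e
        simp only [Finset.mem_insert, Finset.mem_singleton] at e
        rcases e with e | e | e
        · rw [e] at hwa
          exact absurd rfl hwa.ne
        · rw [e] at hwu hlab
          exact Or.inr ⟨hwu, hlab⟩
        · rw [e] at hwu
          exact absurd (lnk_adj huX hwu.symm) (hatt u hu).1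
    · exact absurd (lnk_cons huX hwu.symm (lnk_adj hwX hwa)) (hatt u hu).2

/-- adjacent to exactly one of two vertices -/
def One (G : SimpleGraph V) (c a u : V) : Prop :=
  (G.Adj u c ∧ ¬ G.Adj u a) ∨ (¬ G.Adj u c ∧ G.Adj u a)

lemma side2 {lab : V → V → Fin 2} {R : Finset V} {x c a1 a2 a3 : V} (h : Cfg 2 G lab R)
    (hCN : CN G R x c = {a1, a2, a3})
    (hatt : ∀ w, w ∈ U G R x → ¬ Lnk G (XX {x} {c} (CN G R x c)) w a3 ∧
      ¬ Lnk G (XX {x} {c} (CN G R x c)) w a1) (hxc : G.Adj x c) :
    ∀ u ∈ U G R x, ∀ v ∈ U G R x, One G c a2 u → One G c a2 v → ∀ w, G.Adj w u → G.Adj w v →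
      lab w u ≠ lab w v → w ≠ c ∧ w ≠ a2 := by
  intro u hu v hv h1 h2 w hwu hwv hl
  constructor
  · rintro rfl
    have hu2 : ¬ G.Adj u a2 := by
      rcases h1 with h1 | h1
      · exact h1.2
      · exact absurd hwu.symm h1.1
    have hv2 : ¬ G.Adj v a2 := by
      rcases h2 with h1 | h1
      · exact h1.2
      · exact absurd hwv.symm h1.1
    rcases side1 h hCN hatt hxc u hu with k | k
    · rcases side1 h hCN hatt hxc v hv with k' | k'
      · exact hl (fin2 k.2 k'.2)
      · exact hv2 k'.1.symm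
    · exact hu2 k.1.symm
  · rintro rfl
    have hu2 : ¬ G.Adj u c := by
      rcases h1 with h1 | h1
      · exact absurd hwu.symm h1.2
      · exact h1.1
    have hv2 : ¬ G.Adj v c := by
      rcases h2 with h1 | h1
      · exact absurd hwv.symm h1.2
      · exact h1.1
    rcases side1 h hCN hatt hxc u hu with k | k
    · exact hu2 k.1.symm
    · rcases side1 h hCN hatt hxc v hv with k' | k'
      · exact hv2 k'.1.symm
      · exact hl (fin2 k.2 k'.2)

lemma side3 {R : Finset V} {x c a1 a2 a3 : V} (hco : Co4 G R) (hxc : G.Adj x c)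
    (hCN : CN G R x c = {a1, a2, a3}) (h13 : a1 ≠ a3) (h23 : G.Adj a2 a3) (h21 : G.Adj a2 a1) :
    ((U G R x).filter (fun u => G.Adj u c ∧ G.Adj u a2)).card + ir R x ≤ 2 := by
  have ha1 : a1 ∈ CN G R x c := by rw [hCN]; simp
  have ha2 : a2 ∈ CN G R x c := by rw [hCN]; simp
  have ha3 : a3 ∈ CN G R x c := by rw [hCN]; simp
  obtain ⟨ha1R, ha1x, ha1c⟩ := Finset.mem_filter.1 ha1
  obtain ⟨ha2R, ha2x, ha2c⟩ := Finset.mem_filter.1 ha2
  obtain ⟨ha3R, ha3x, ha3c⟩ := Finset.mem_filter.1 ha3
  have h4 := hco c a2 ha2c.ne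
  set W := (U G R x).filter (fun u => G.Adj u c ∧ G.Adj u a2) with hW
  have hWm : ∀ u ∈ W, u ∈ R ∧ u ≠ x ∧ ¬ G.Adj x u ∧ G.Adj u c ∧ G.Adj u a2 := by
    intro u hu
    obtain ⟨h1, h2, h3⟩ := Finset.mem_filter.1 hu
    obtain ⟨h4, h5, h6⟩ := Finset.mem_filter.1 h1
    exact ⟨h4, h5, h6, h2, h3⟩
  unfold ir
  split_ifs with hx
  · have hsub : W ∪ {a1, a3, x} ⊆ CN G R c a2 := by
      intro u hu
      rcases Finset.mem_union.1 hu with hu | hu
      · obtain ⟨k1, k2, k3, k4, k5⟩ := hWm u hu
        exact Finset.mem_filter.2 ⟨k1, k4.symm, k5.symm⟩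
      · simp only [Finset.mem_insert, Finset.mem_singleton] at hu
        rcases hu with rfl | rfl | rfl
        · exact Finset.mem_filter.2 ⟨ha1R, ha1c, h21⟩
        · exact Finset.mem_filter.2 ⟨ha3R, ha3c, h23⟩
        · exact Finset.mem_filter.2 ⟨hx, hxc.symm, ha2x.symm⟩
    have hd : Disjoint W ({a1, a3, x} : Finset V) := by
      rw [Finset.disjoint_left]
      intro u hu hu2
      obtain ⟨k1, k2, k3, k4, k5⟩ := hWm u hu
      simp only [Finset.mem_insert, Finset.mem_singleton] at hu2
      rcases hu2 with rfl | rfl | rfl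
      · exact k3 ha1x
      · exact k3 ha3x
      · exact k2 rfl
    have hc := Finset.card_le_card hsub
    rw [Finset.card_union_of_disjoint hd, Finset.card_eq_three.2
      ⟨a1, a3, x, h13, ha1x.ne', ha3x.ne', rfl⟩] at hc
    omega
  · have hsub : W ∪ {a1, a3} ⊆ CN G R c a2 := by
      intro u hu
      rcases Finset.mem_union.1 hu with hu | hu
      · obtain ⟨k1, k2, k3, k4, k5⟩ := hWm u hu
        exact Finset.mem_filter.2 ⟨k1, k4.symm, k5.symm⟩
      · simp only [Finset.mem_insert, Finset.mem_singleton] at hu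
        rcases hu with rfl | rfl
        · exact Finset.mem_filter.2 ⟨ha1R, ha1c, h21⟩
        · exact Finset.mem_filter.2 ⟨ha3R, ha3c, h23⟩
    have hd : Disjoint W ({a1, a3} : Finset V) := by
      rw [Finset.disjoint_left]
      intro u hu hu2
      obtain ⟨k1, k2, k3, k4, k5⟩ := hWm u hu
      simp only [Finset.mem_insert, Finset.mem_singleton] at hu2
      rcases hu2 with rfl | rfl
      · exact k3 ha1x
      · exact k3 ha3x
    have hc := Finset.card_le_card hsub
    rw [Finset.card_union_of_disjoint hd, Finset.card_pair h13] at hc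
    omega

theorem t8c (hP7 : PE7Stmt) (hA : T8AStmt) : T8CStmt := by
  intro V G lab R x c c' a1 a2 a3 b1 b2 b3 hcfg hT hCN ha12 ha13 ha23 A23 A21 hcov hatt
    hCN' hb12 hb13 hb23 B23 B21 hcov' hatt'
  obtain ⟨-, hA2, hA3, -, -⟩ := hA V G R x c c' hT
  have hco := hT.l.co
  have ha2 : a2 ∈ CN G R x c := by rw [hCN]; simp
  have hb2 : b2 ∈ CN G R x c' := by rw [hCN']; simp
  obtain ⟨ha2R, ha2x, ha2c⟩ := Finset.mem_filter.1 ha2
  obtain ⟨hb2R, hb2x, hb2c⟩ := Finset.mem_filter.1 hb2
  have s2 := side2 hcfg hCN (fun w hw => hatt w (Or.inl hw)) hT.ac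
  have s2' := side2 hcfg hCN' (fun w hw => hatt' w (Or.inl hw)) hT.ac'
  have s3 := side3 hco hT.ac hCN ha13 A23 A21
  have s3' := side3 hco hT.ac' hCN' hb13 B23 B21
  have hUm : ∀ u ∈ U G R x, u ∈ R ∧ u ≠ x ∧ ¬ G.Adj x u := fun u hu => Finset.mem_filter.1 hu
  have hxU : x ∉ U G R x := fun h => (hUm x h).2.1 rfl
  -- count of `U`
  have hUc : (U G R x).card + ir R x = 8 := by
    have hR : R = D G R x ∪ U G R x ∪ (if x ∈ R then {x} else ∅) := by
      ext v
      simp only [D, U, Finset.mem_union, Finset.mem_filter]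
      constructor
      · intro hv
        by_cases hvx : v = x
        · right
          rw [if_pos (hvx ▸ hv)]
          simp [hvx]
        · left
          by_cases h : G.Adj x v
          · exact Or.inl ⟨hv, h⟩
          · exact Or.inr ⟨hv, hvx, h⟩
      · rintro ((h | h) | h)
        · exact h.1
        · exact h.1
        · split_ifs at h with h'
          · rw [Finset.mem_singleton] at h
            rwa [h]
          · simp at h
    have hd1 : Disjoint (D G R x) (U G R x) := by
      rw [Finset.disjoint_left]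
      intro v h1 h2
      exact (hUm v h2).2.2 (Finset.mem_filter.1 h1).2
    have hR16 := hT.l.card
    have hD8 := hT.dx
    unfold ir
    by_cases hx : x ∈ R
    · rw [if_pos hx] at hR ⊢
      have hd2 : Disjoint (D G R x ∪ U G R x) {x} := by
        rw [Finset.disjoint_singleton_right, Finset.mem_union]
        rintro (h | h)
        · exact (Finset.mem_filter.1 h).2.ne rfl
        · exact hxU h
      have : R.card = (D G R x).card + (U G R x).card + 1 := by
        conv_lhs => rw [hR]
        rw [Finset.card_union_of_disjoint hd2, Finset.card_union_of_disjoint hd1,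
          Finset.card_singleton]
      omega
    · rw [if_neg hx] at hR ⊢
      rw [Finset.union_empty] at hR
      have : R.card = (D G R x).card + (U G R x).card := by
        conv_lhs => rw [hR]
        rw [Finset.card_union_of_disjoint hd1]
      omega
  have hir : ir R x ≤ 1 := by
    unfold ir
    split_ifs <;> omega
  set S := insert x (U G R x) with hS
  set T := (U G R x).filter (fun u => One G c a2 u ∧ One G c' b2 u) with hTd
  have hScard : 6 ≤ S.card := by
    rw [hS, Finset.card_insert_of_notMem hxU]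
    omega
  have hTS : T ⊆ S := fun u hu => Finset.mem_insert_of_mem (Finset.mem_filter.1 hu).1
  have hcb : c ≠ b2 := by
    rintro rfl
    exact hA3 hb2c.symm
  have hab : a2 ≠ b2 := by
    rintro rfl
    exact (hA2 _ ha2).2 hb2c
  have hpol : Pol G ({c, a2} : Set V) ({c', b2} : Set V) S := by
    refine ⟨con_pair (Or.inr ha2c), con_pair (Or.inr hb2c), ?_, ?_, ?_, ?_, ?_⟩
    · rw [Set.disjoint_left]
      rintro v hv hv'
      simp only [Set.mem_insert_iff, Set.mem_singleton_iff] at hv hv'
      rcases hv with rfl | rfl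
      · rcases hv' with e | e
        · exact hT.ne e
        · exact hcb e
      · rcases hv' with e | e
        · exact (hA2 _ ha2).1 e
        · exact hab e
    · intro s hs hs2
      simp only [Set.mem_insert_iff, Set.mem_singleton_iff] at hs2
      rcases Finset.mem_insert.1 hs with e | e
      · subst e
        rcases hs2 with e | e
        · exact hT.ac.ne e
        · exact ha2x.ne e
      · rcases hs2 with e' | e'
        · exact (hUm s e).2.2 (e' ▸ hT.ac)
        · exact (hUm s e).2.2 (e' ▸ ha2x)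
    · intro s hs hs2
      simp only [Set.mem_insert_iff, Set.mem_singleton_iff] at hs2
      rcases Finset.mem_insert.1 hs with e | e
      · subst e
        rcases hs2 with e | e
        · exact hT.ac'.ne e
        · exact hb2x.ne e
      · rcases hs2 with e' | e'
        · exact (hUm s e).2.2 (e' ▸ hT.ac')
        · exact (hUm s e).2.2 (e' ▸ hb2x)
    · intro s hs
      rcases Finset.mem_insert.1 hs with e | e
      · exact ⟨c, by simp, e ▸ hT.ac.symm⟩
      · rcases hcov s e with k | k
        · exact ⟨c, by simp, k.symm⟩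
        · exact ⟨a2, by simp, k.symm⟩
    · intro s hs
      rcases Finset.mem_insert.1 hs with e | e
      · exact ⟨c', by simp, e ▸ hT.ac'.symm⟩
      · rcases hcov' s e with k | k
        · exact ⟨c', by simp, k.symm⟩
        · exact ⟨b2, by simp, k.symm⟩
  have hT3 : T.card ≤ 3 := by
    refine hP7 V G _ _ S T hcfg.pg hpol hScard hTS ?_
    intro s hs t ht hst
    obtain ⟨hsU, hs1, hs2⟩ := Finset.mem_filter.1 hs
    obtain ⟨htU, ht1, ht2⟩ := Finset.mem_filter.1 ht
    rcases hcfg.lk s (hUm s hsU).1 t (hUm t htU).1 hst with h | ⟨w, -, hw1, hw2, hl⟩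
    · exact Or.inl h
    · refine Or.inr ⟨w, ?_, hw1.symm, hw2⟩
      have k1 := s2 s hsU t htU hs1 ht1 w hw1 hw2 hl
      have k2 := s2' s hsU t htU hs2 ht2 w hw1 hw2 hl
      simp only [Set.mem_union, Set.mem_insert_iff, Set.mem_singleton_iff]
      rintro ((e | e) | (e | e))
      · exact k1.1 e
      · exact k1.2 e
      · exact k2.1 e
      · exact k2.2 e
  have hcover : U G R x ⊆ T ∪ ((U G R x).filter (fun u => G.Adj u c ∧ G.Adj u a2) ∪
      (U G R x).filter (fun u => G.Adj u c' ∧ G.Adj u b2)) := by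
    intro u hu
    simp only [Finset.mem_union, hTd, Finset.mem_filter]
    have k1 := hcov u hu
    have k2 := hcov' u hu
    unfold One
    tauto
  have h1 := Finset.card_le_card hcover
  have h2 := Finset.card_union_le T ((U G R x).filter (fun u => G.Adj u c ∧ G.Adj u a2) ∪
      (U G R x).filter (fun u => G.Adj u c' ∧ G.Adj u b2))
  have h3 := Finset.card_union_le ((U G R x).filter (fun u => G.Adj u c ∧ G.Adj u a2))
      ((U G R x).filter (fun u => G.Adj u c' ∧ G.Adj u b2))
  omega

end Pool.Agent.H22.RCQ.T8C
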